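import Pool.Agent.Q78.WI.Stm

/-!
# Project WI, job E7b: limit of the expectation of `F_n`
-/

set_option autoImplicit false

open MeasureTheory ProbabilityTheory Filter Topology Set
open scoped NNReal InnerProductSpace Matrix

namespace Pool.Agent.Q121.WI

open Pool.Agent.Q78.WI

universe v

/-- trace of the square and of the cube -/
theorem tr2 {d : ℕ} (M : Matrix (Fin d) (Fin d) ℝ) (hM : M.IsHermitian) :
    (M * M).trace = ∑ i, ∑ j, M i j ^ 2 := by
  have hs : ∀ i j, M j i = M i j := fun i j => by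
    have := hM.apply i j
    simpa using this
  unfold Matrix.trace
  refine Finset.sum_congr rfl (fun i _ => ?_)
  rw [Matrix.diag_apply, Matrix.mul_apply]
  refine Finset.sum_congr rfl (fun j _ => ?_)
  rw [hs i j]
  ring

theorem tr3 {d : ℕ} (M : Matrix (Fin d) (Fin d) ℝ) :
    (M * M * M).trace = ∑ i, ∑ j, ∑ k, M i j * M j k * M k i := by
  unfold Matrix.trace
  refine Finset.sum_congr rfl (fun i _ => ?_)
  rw [Matrix.diag_apply, Matrix.mul_apply, Finset.sum_comm]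
  refine Finset.sum_congr rfl (fun k _ => ?_)
  rw [Matrix.mul_apply, Finset.sum_mul]

theorem e7b (h5 : S_E5.{v}) (h6 : S_E6.{v}) (h7a : S_E7a) : S_E7b.{v} := by
  intro Ω _ P _ α d M N hd hW s κ hs hκ
  obtain ⟨hh, hA, hB, hC, hD, hE, hM⟩ := h7a d
  have hd0 : (d : ℝ) ≠ 0 := by exact_mod_cast hd.ne'
  obtain ⟨i1, l0, l1, l2, -⟩ := h5 Ω P α d M N hW 1 Matrix.isHermitian_one s κ hs hκ
  have e5 := fun i j => h5 Ω P α d M N hW (hij i j) (hh i j) s κ hs hκ
  have e6 := fun i j k => h6 Ω P α d M N hW (hij i j) (hij j k) (hij k i) (hh i j) (hh j k)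
    (hh k i) s κ hs hκ
  -- the five functions
  obtain ⟨T0, hT0⟩ : ∃ T : ℕ → Ω → ℝ, T = fun n ω => wt α (M ω) n := ⟨_, rfl⟩
  obtain ⟨T1, hT1⟩ : ∃ T : ℕ → Ω → ℝ, T = fun n ω => Yn 1 (M ω) n * wt α (M ω) n := ⟨_, rfl⟩
  obtain ⟨T2, hT2⟩ : ∃ T : ℕ → Ω → ℝ, T = fun n ω => Yn 1 (M ω) n ^ 2 * wt α (M ω) n := ⟨_, rfl⟩
  obtain ⟨T3, hT3⟩ : ∃ T : ℕ → Ω → ℝ, T = fun n ω =>
    ∑ i, ∑ j, Yn (hij i j) (M ω) n ^ 2 * wt α (M ω) n := ⟨_, rfl⟩
  obtain ⟨T4, hT4⟩ : ∃ T : ℕ → Ω → ℝ, T = fun n ω =>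
    ∑ i, ∑ j, ∑ k, Yn (hij i j) (M ω) n * Yn (hij j k) (M ω) n * Yn (hij k i) (M ω) n *
      wt α (M ω) n := ⟨_, rfl⟩
  have hpt : ∀ n ω, Fn s (M ω) n * wt α (M ω) n =
      1 / (d : ℝ) ^ 2 * T2 n ω + (1 / (4 * d) - 2 * s / d) * T1 n ω + s ^ 2 * T0 n ω
        + (-(1 / (d : ℝ) ^ 2)) * T3 n ω + 1 / (d : ℝ) ^ 3 * T4 n ω := by
    intro n ω
    have hMω := (hW.posM ω).isHermitian
    have y1 : Yn 1 (M ω) n = (n : ℝ) * (M ω).trace := by
      unfold Yn
      rw [Matrix.one_mul]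
    have y2 : ∀ i j, Yn (hij i j) (M ω) n = (n : ℝ) * M ω i j := by
      intro i j
      unfold Yn
      rw [hM (M ω) hMω i j]
    have q3 : T3 n ω = (n : ℝ) ^ 2 * (M ω * M ω).trace * wt α (M ω) n := by
      rw [hT3, tr2 (M ω) hMω]
      simp only [y2]
      rw [Finset.mul_sum, Finset.sum_mul]
      refine Finset.sum_congr rfl (fun i _ => ?_)
      rw [Finset.mul_sum, Finset.sum_mul]
      refine Finset.sum_congr rfl (fun j _ => ?_)
      ring
    have q4 : T4 n ω = (n : ℝ) ^ 3 * (M ω * M ω * M ω).trace * wt α (M ω) n := by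
      rw [hT4, tr3 (M ω)]
      simp only [y2]
      rw [Finset.mul_sum, Finset.sum_mul]
      refine Finset.sum_congr rfl (fun i _ => ?_)
      rw [Finset.mul_sum, Finset.sum_mul]
      refine Finset.sum_congr rfl (fun j _ => ?_)
      rw [Finset.mul_sum, Finset.sum_mul]
      refine Finset.sum_congr rfl (fun k _ => ?_)
      ring
    rw [q3, q4, hT0, hT1, hT2]
    simp only [y1]
    unfold Fn
    field_simp
    ring
  -- integrability
  have I0 : ∀ n, Integrable (T0 n) P := by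
    intro n
    have := i1 n 0 (by norm_num)
    rw [hT0]
    simpa using this
  have I1 : ∀ n, Integrable (T1 n) P := by
    intro n
    have := i1 n 1 (by norm_num)
    rw [hT1]
    simpa using this
  have I2 : ∀ n, Integrable (T2 n) P := by
    intro n
    have := i1 n 2 (by norm_num)
    rw [hT2]
    exact this
  have I3 : ∀ n, Integrable (T3 n) P := by
    intro n
    rw [hT3]
    exact integrable_finsetSum _ (fun i _ => integrable_finsetSum _ (fun j _ =>
      (e5 i j).1 n 2 (by norm_num)))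
  have I4 : ∀ n, Integrable (T4 n) P := by
    intro n
    rw [hT4]
    exact integrable_finsetSum _ (fun i _ => integrable_finsetSum _ (fun j _ =>
      integrable_finsetSum _ (fun k _ => (e6 i j k).1 n)))
  -- limits
  have L0 : Tendsto (fun n => ∫ ω, T0 n ω ∂P) atTop (𝓝 κ) := by
    rw [hT0]
    exact l0
  have L1 : Tendsto (fun n => ∫ ω, T1 n ω ∂P) atTop (𝓝 (κ * (s * d))) := by
    rw [hT1]
    simpa using l1
  have L2 : Tendsto (fun n => ∫ ω, T2 n ω ∂P) atTop (𝓝 (κ * (s * d + s ^ 2 * (d : ℝ) ^ 2))) := by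
    rw [hT2]
    simpa using l2
  have L3 : Tendsto (fun n => ∫ ω, T3 n ω ∂P) atTop
      (𝓝 (κ * (s * (((d : ℝ) ^ 2 + d) / 2) + s ^ 2 * d))) := by
    have h1 : Tendsto (fun n => ∑ i : Fin d, ∑ j : Fin d,
        ∫ ω, Yn (hij i j) (M ω) n ^ 2 * wt α (M ω) n ∂P) atTop
        (𝓝 (∑ i : Fin d, ∑ j : Fin d,
          κ * (s * (hij i j * hij i j).trace + s ^ 2 * (hij i j).trace ^ 2))) :=
      tendsto_finsetSum _ (fun i _ => tendsto_finsetSum _ (fun j _ => (e5 i j).2.2.2.1))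
    have h2 : ∑ i : Fin d, ∑ j : Fin d,
          κ * (s * (hij i j * hij i j).trace + s ^ 2 * (hij i j).trace ^ 2) =
        κ * (s * (((d : ℝ) ^ 2 + d) / 2) + s ^ 2 * d) := by
      rw [← hD, ← hE]
      simp only [Finset.mul_sum, ← Finset.sum_add_distrib]
    rw [← h2]
    refine h1.congr (fun n => ?_)
    rw [hT3, integral_finsetSum _ (fun i _ => integrable_finsetSum _ (fun j _ =>
      (e5 i j).1 n 2 (by norm_num)))]
    refine Finset.sum_congr rfl (fun i _ => ?_)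
    rw [integral_finsetSum _ (fun j _ => (e5 i j).1 n 2 (by norm_num))]
  have L4 : Tendsto (fun n => ∫ ω, T4 n ω ∂P) atTop
      (𝓝 (κ * (2 * s * (((d : ℝ) ^ 3 + 3 * d ^ 2 + 4 * d) / 8) + s ^ 2 * (3 * ((d : ℝ) ^ 2 + d) / 2)
        + s ^ 3 * d))) := by
    have h1 : Tendsto (fun n => ∑ i : Fin d, ∑ j : Fin d, ∑ k : Fin d,
        ∫ ω, Yn (hij i j) (M ω) n * Yn (hij j k) (M ω) n * Yn (hij k i) (M ω) n *
          wt α (M ω) n ∂P) atTop
        (𝓝 (∑ i : Fin d, ∑ j : Fin d, ∑ k : Fin d,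
          κ * (2 * s * (hij i j * hij j k * hij k i).trace
        + s ^ 2 * ((hij i j).trace * (hij j k * hij k i).trace
          + (hij j k).trace * (hij i j * hij k i).trace
          + (hij k i).trace * (hij i j * hij j k).trace)
        + s ^ 3 * ((hij i j).trace * (hij j k).trace * (hij k i).trace)))) :=
      tendsto_finsetSum _ (fun i _ => tendsto_finsetSum _ (fun j _ => tendsto_finsetSum _
        (fun k _ => (e6 i j k).2)))
    have h2 : ∑ i : Fin d, ∑ j : Fin d, ∑ k : Fin d,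
          κ * (2 * s * (hij i j * hij j k * hij k i).trace
        + s ^ 2 * ((hij i j).trace * (hij j k * hij k i).trace
          + (hij j k).trace * (hij i j * hij k i).trace
          + (hij k i).trace * (hij i j * hij j k).trace)
        + s ^ 3 * ((hij i j).trace * (hij j k).trace * (hij k i).trace)) =
        κ * (2 * s * (((d : ℝ) ^ 3 + 3 * d ^ 2 + 4 * d) / 8) + s ^ 2 * (3 * ((d : ℝ) ^ 2 + d) / 2)
        + s ^ 3 * d) := by
      rw [← hA, ← hB, ← hC]
      simp only [Finset.mul_sum, ← Finset.sum_add_distrib]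
    rw [← h2]
    refine h1.congr (fun n => ?_)
    rw [hT4, integral_finsetSum _ (fun i _ => integrable_finsetSum _ (fun j _ =>
      integrable_finsetSum _ (fun k _ => (e6 i j k).1 n)))]
    refine Finset.sum_congr rfl (fun i _ => ?_)
    rw [integral_finsetSum _ (fun j _ => integrable_finsetSum _ (fun k _ => (e6 i j k).1 n))]
    refine Finset.sum_congr rfl (fun j _ => ?_)
    rw [integral_finsetSum _ (fun k _ => (e6 i j k).1 n)]
  have J12 : ∀ n, Integrable (fun ω => 1 / (d : ℝ) ^ 2 * T2 n ω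
      + (1 / (4 * d) - 2 * s / d) * T1 n ω) P :=
    fun n => ((I2 n).const_mul _).add ((I1 n).const_mul _)
  have J0 : ∀ n, Integrable (fun ω => 1 / (d : ℝ) ^ 2 * T2 n ω
      + (1 / (4 * d) - 2 * s / d) * T1 n ω + s ^ 2 * T0 n ω) P :=
    fun n => (J12 n).add ((I0 n).const_mul _)
  have J3 : ∀ n, Integrable (fun ω => 1 / (d : ℝ) ^ 2 * T2 n ω
      + (1 / (4 * d) - 2 * s / d) * T1 n ω + s ^ 2 * T0 n ω
      + (-(1 / (d : ℝ) ^ 2)) * T3 n ω) P :=
    fun n => (J0 n).add ((I3 n).const_mul _)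
  have J4 : ∀ n, Integrable (fun ω => 1 / (d : ℝ) ^ 2 * T2 n ω
      + (1 / (4 * d) - 2 * s / d) * T1 n ω + s ^ 2 * T0 n ω
      + (-(1 / (d : ℝ) ^ 2)) * T3 n ω + 1 / (d : ℝ) ^ 3 * T4 n ω) P :=
    fun n => (J3 n).add ((I4 n).const_mul _)
  refine ⟨fun n => ?_, fun n => ?_, ?_, ?_⟩
  · have := J4 n
    simpa only [← hpt n] using this
  · have := I0 n
    rwa [hT0] at this
  · rwa [hT0] at L0
  · have h1 : ∀ n, ∫ ω, Fn s (M ω) n * wt α (M ω) n ∂P =
        1 / (d : ℝ) ^ 2 * (∫ ω, T2 n ω ∂P) + (1 / (4 * d) - 2 * s / d) * (∫ ω, T1 n ω ∂P)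
          + s ^ 2 * (∫ ω, T0 n ω ∂P) + (-(1 / (d : ℝ) ^ 2)) * (∫ ω, T3 n ω ∂P)
          + 1 / (d : ℝ) ^ 3 * (∫ ω, T4 n ω ∂P) := by
      intro n
      rw [integral_congr_ae (Eventually.of_forall (fun ω => hpt n ω)),
        integral_add (J3 n) ((I4 n).const_mul _), integral_add (J0 n) ((I3 n).const_mul _),
        integral_add (J12 n) ((I0 n).const_mul _),
        integral_add ((I2 n).const_mul _) ((I1 n).const_mul _),
        integral_const_mul, integral_const_mul, integral_const_mul, integral_const_mul,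
        integral_const_mul]
    have h2 := ((((L2.const_mul (1 / (d : ℝ) ^ 2)).add
      (L1.const_mul (1 / (4 * (d : ℝ)) - 2 * s / d))).add (L0.const_mul (s ^ 2))).add
      (L3.const_mul (-(1 / (d : ℝ) ^ 2)))).add (L4.const_mul (1 / (d : ℝ) ^ 3))
    have h3 : 1 / (d : ℝ) ^ 2 * (κ * (s * d + s ^ 2 * (d : ℝ) ^ 2))
        + (1 / (4 * (d : ℝ)) - 2 * s / d) * (κ * (s * d)) + s ^ 2 * κ
        + (-(1 / (d : ℝ) ^ 2)) * (κ * (s * (((d : ℝ) ^ 2 + d) / 2) + s ^ 2 * d))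
        + 1 / (d : ℝ) ^ 3 * (κ * (2 * s * (((d : ℝ) ^ 3 + 3 * d ^ 2 + 4 * d) / 8)
          + s ^ 2 * (3 * ((d : ℝ) ^ 2 + d) / 2) + s ^ 3 * d)) =
        κ * ((5 * s / 4 + s ^ 2 / 2) / d + (s + 3 * s ^ 2 / 2 + s ^ 3) / d ^ 2) := by
      field_simp
      ring
    rw [← h3]
    exact h2.congr (fun n => (h1 n).symm)

end Pool.Agent.Q121.WI
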